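import Pool.Agent.Work.MP_e120ef_ag.C.Main

open CategoryTheory AlgebraicGeometry Pool.Agent.Work.MP_e120ef_ag

namespace Pool.Agent.Work.MP_e120ef_ag.Old.ConstantDegeneracy

theorem result (k K : Type) [Field k] [CharZero k] [NontriviallyNormedField K]
    [IsUltrametricDist K] [CompleteSpace K] [IsAlgClosed K] [Algebra k K] (Y : Sch k) (X G : Sch K)
    [IsIntegral Y.left] [IsProper Y.hom] [Smooth Y.hom] [IsIntegral X.left] [GrpObj G]
    [IsIntegral G.left] [LocallyOfFiniteType G.hom] (π : Fn Y →+* Fn X)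
    (hπ : ∀ c : k, π (algebraMap k (Fn Y) c) = algebraMap K (Fn X) (algebraMap k K c)) (p : ℕ)
    (s : Fin p → Fn Y) (hs : AlgebraicIndependent K fun i => π (s i))
    (hp : p ≤ 2)
    (hk : p = 2 → ∀ c : k, ‖algebraMap k K c‖ ≤ 1) (m : ℕ) (h h' : Fn Y)
    (hh : h ∈ Pluri (O Y) s m) (hh' : h' ∈ Pluri (O Y) s m)
    (f : G.left → X.left) (hf : H.Mero f) : ∃ c : K, π (h / h') = algebraMap K (Fn X) c :=
  H.CS.final π hπ hs
    ((Nat.lt_or_eq_of_le hp).elim (fun h => Or.inl (Nat.le_of_lt_succ h)) fun h => Or.inr ⟨h, hk h⟩)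
    hh hh' hf

end Pool.Agent.Work.MP_e120ef_ag.Old.ConstantDegeneracy
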