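import Pool.Agent.Work.MP_e120ef_ag.H.Main2

open CategoryTheory AlgebraicGeometry Pool.Agent.Work.MP_e120ef_ag

namespace Pool.Agent.Work.MP_e120ef_ag.Old.GroupDegeneracy

theorem result (K : Type) [NontriviallyNormedField K] [IsUltrametricDist K] [CompleteSpace K]
    [IsAlgClosed K] [CharZero K] (X A G : Sch K) [IsIntegral X.left] [IsProper X.hom]
    [Smooth X.hom] [GrpObj A] [IsProper A.hom] [GeometricallyIntegral A.hom] [IsIntegral A.left]
    [GrpObj G] [IsIntegral G.left] [LocallyOfFiniteType G.hom] (α : X ⟶ A) [IsDominant α.left]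
    (g : ℕ) (t : Fin g → Fn A) (ht : IsTranscendenceBasis K t) (m : ℕ)
    (hκ : ∀ a : Fn A, AlgQ K (Pluri (O X) (fun i => pull α (t i)) m) (pull α a))
    (f : G.left → X.left) (hf : H.Mero f) : g = 0 :=
  H.final2 α ht hκ hf

end Pool.Agent.Work.MP_e120ef_ag.Old.GroupDegeneracy
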